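import Pool.Agent.H93.KC.Targets

open Set Metric Filter Topology

namespace Pool.Agent.H19.KC

open Pool.Agent.H93.KC

lemma disc {F : E → ℂ} {U : Set E} (hU : IsOpen U) (hXU : X ⊆ U) (hF : DifferentiableOn ℂ F U)
    {k : ℂ → E} (hk : Differentiable ℂ k) {p : ℂ} {r : ℝ} (hr : 0 < r)
    (hkX : ∀ s ∈ closedBall p r, k s ∈ X) {M : ℝ} (hM : ∀ x ∈ X, ‖F x‖ ≤ M) {z : ℂ}
    (hz : z ∈ ball p r) (hzM : ‖F (k z)‖ = M) : ∀ s ∈ closedBall p r, ‖F (k s)‖ = M := by
  have hd : DiffContOnCl ℂ (fun s => F (k s)) (ball p r) := by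
    apply DifferentiableOn.diffContOnCl
    rw [closure_ball p hr.ne']
    intro s hs
    have h1 : DifferentiableAt ℂ F (k s) :=
      (hF _ (hXU (hkX s hs))).differentiableAt (hU.mem_nhds (hXU (hkX s hs)))
    exact (h1.comp s (hk s)).differentiableWithinAt
  have hmax : IsMaxOn (norm ∘ fun s => F (k s)) (ball p r) z := by
    intro s hs
    show ‖F (k s)‖ ≤ ‖F (k z)‖
    rw [hzM]
    exact hM _ (hkX s (ball_subset_closedBall hs))
  have := Complex.norm_eqOn_closure_of_isPreconnected_of_isMaxOn (convex_ball p r).isPreconnected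
    isOpen_ball hd hz hmax
  rw [closure_ball p hr.ne'] at this
  intro s hs
  have h2 := this hs
  simp only [Function.comp, Function.const] at h2
  rw [h2, hzM]

lemma norm_aF (z : ℂ) : ‖aF z‖ = Real.exp (z.re * Real.log 2) := by
  rw [aF, Complex.norm_exp, Complex.re_mul_ofReal]

lemma norm_bF (z : ℂ) : ‖bF z‖ = 8 * (‖z - 1‖ * ‖z + 1‖) := by
  rw [bF, ← norm_mul, norm_mul]
  simp only [Complex.norm_ofNat]
  congr 2
  ring

lemma exp_half_sq : Real.exp (1 / 2 * Real.log 2) ^ 2 = 2 := by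
  rw [← Real.exp_nat_mul]
  have : ((2 : ℕ) : ℝ) * (1 / 2 * Real.log 2) = Real.log 2 := by push_cast; ring
  rw [this, Real.exp_log two_pos]

lemma aF_small {z : ℂ} (h : z.re ≤ -1 / 2) : ‖aF z‖ ≤ 4 / 5 := by
  rw [norm_aF]
  have h1 : Real.exp (z.re * Real.log 2) ≤ Real.exp (-(1 / 2 * Real.log 2)) := by
    apply Real.exp_le_exp.2
    have := Real.log_pos (show (1 : ℝ) < 2 by norm_num)
    nlinarith
  have h2 : Real.exp (-(1 / 2 * Real.log 2)) = (Real.exp (1 / 2 * Real.log 2))⁻¹ := Real.exp_neg _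
  have h3 := exp_half_sq
  have h4 : 0 < Real.exp (1 / 2 * Real.log 2) := Real.exp_pos _
  have h5 : 5 / 4 ≤ Real.exp (1 / 2 * Real.log 2) := by nlinarith
  rw [h2] at h1
  refine h1.trans ?_
  rw [inv_le_comm₀ h4 (by norm_num)]
  linarith

lemma aF_large {z : ℂ} (h : 1 / 2 ≤ z.re) : 6 / 5 ≤ ‖aF z‖ := by
  rw [norm_aF]
  have h1 : Real.exp (1 / 2 * Real.log 2) ≤ Real.exp (z.re * Real.log 2) := by
    apply Real.exp_le_exp.2
    have := Real.log_pos (show (1 : ℝ) < 2 by norm_num)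
    nlinarith
  have h3 := exp_half_sq
  have h4 : 0 < Real.exp (1 / 2 * Real.log 2) := Real.exp_pos _
  have h5 : 6 / 5 ≤ Real.exp (1 / 2 * Real.log 2) := by nlinarith
  linarith

lemma aF_ne (z : ℂ) : aF z ≠ 0 := Complex.exp_ne_zero _

lemma hull (hGEO : T_GEO) : T_HULL := by
  intro F U hU hXU hF x hx
  obtain ⟨hYc, -, hYX, hXc, -⟩ := hGEO
  obtain ⟨y0, hy0, hmax⟩ := hXc.exists_isMaxOn ⟨x, hx⟩ (hF.continuousOn.mono hXU).norm
  set M := ‖F y0‖ with hMdef
  have hM : ∀ x ∈ X, ‖F x‖ ≤ M := fun x hx => hmax hx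
  suffices h : ∃ y ∈ Y, ‖F y‖ = M by
    obtain ⟨y, hy, h⟩ := h
    exact ⟨y, hy, h ▸ hM x hx⟩
  -- FACT 1
  have fact1 : ∀ u : E, ‖F u‖ = M → ‖u.1 - 1‖ < 2 → ‖u.2 - bF u.1‖ ≤ ‖aF u.1‖ →
      ∃ y ∈ Y, ‖F y‖ = M := by
    intro u hu h1 h2
    set c : ℂ := (u.2 - bF u.1) / aF u.1 with hc
    have hc1 : ‖c‖ ≤ 1 := by
      rw [hc, norm_div]
      exact div_le_one_of_le₀ h2 (norm_nonneg _)
    have hk : Differentiable ℂ (fun s : ℂ => ((s, c * aF s + bF s) : E)) := by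
      unfold aF bF
      fun_prop
    have hkX : ∀ s ∈ closedBall (1 : ℂ) 2, ((s, c * aF s + bF s) : E) ∈ X := by
      intro s hs
      rw [mem_closedBall, dist_eq_norm] at hs
      refine Or.inl ⟨hs, ?_⟩
      simp only [add_sub_cancel_right, norm_mul]
      exact mul_le_of_le_one_left (norm_nonneg _) hc1
    have hk1 : ((u.1, c * aF u.1 + bF u.1) : E) = u := by
      rw [hc, div_mul_cancel₀ _ (aF_ne _), sub_add_cancel]
    have := disc hU hXU hF hk two_pos hkX hM (z := u.1)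
      (by rw [mem_ball, dist_eq_norm]; exact h1) (by rw [hk1]; exact hu) 3
      (by rw [mem_closedBall, dist_eq_norm]; norm_num)
    refine ⟨_, ?_, this⟩
    refine Or.inl ⟨⟨by norm_num, by norm_num⟩, ?_⟩
    simp only [add_sub_cancel_right, norm_mul]
    exact mul_le_of_le_one_left (norm_nonneg _) hc1
  have fact2 : ∀ u : E, ‖F u‖ = M → ‖u.1 + 1‖ < 2 → ‖u.2‖ ≤ 1 → ∃ y ∈ Y, ‖F y‖ = M := by
    intro u hu h1 h2
    have hk : Differentiable ℂ (fun s : ℂ => ((s, u.2) : E)) := by fun_prop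
    have hkX : ∀ s ∈ closedBall (-1 : ℂ) 2, ((s, u.2) : E) ∈ X := by
      intro s hs
      rw [mem_closedBall, dist_eq_norm, sub_neg_eq_add] at hs
      exact Or.inr ⟨hs, h2⟩
    have := disc hU hXU hF hk two_pos hkX hM (z := u.1)
      (by rw [mem_ball, dist_eq_norm, sub_neg_eq_add]; exact h1) hu (-3)
      (by rw [mem_closedBall, dist_eq_norm]; norm_num)
    refine ⟨_, ?_, this⟩
    exact Or.inr ⟨⟨by norm_num, by norm_num⟩, h2⟩
  have hre1 : ∀ z : ℂ, ‖z + 1‖ < 1 / 100 → z.re ≤ -1 / 2 := by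
    intro z hz
    have h1 := (Complex.abs_re_le_norm (z + 1)).trans hz.le
    rw [abs_le] at h1
    have := h1.2
    simp at this
    linarith
  have hre2 : ∀ z : ℂ, ‖z - 1‖ < 1 / 100 → 1 / 2 ≤ z.re := by
    intro z hz
    have h1 := (Complex.abs_re_le_norm (z - 1)).trans hz.le
    rw [abs_le] at h1
    have := h1.1
    simp at this
    linarith
  rcases hy0 with ⟨h1, h2⟩ | ⟨h1, h2⟩
  · rcases h1.lt_or_eq with h1 | h1
    · exact fact1 y0 rfl h1 h2
    · by_cases h3 : 1 / 100 ≤ ‖y0.1 + 1‖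
      · exact ⟨y0, Or.inl ⟨⟨h1, h3⟩, h2⟩, rfl⟩
      · rw [not_le] at h3
        have ha := aF_small (hre1 _ h3)
        have hb : ‖bF y0.1‖ ≤ 4 / 25 := by
          rw [norm_bF, h1]; linarith
        refine fact2 y0 rfl (by linarith) ?_
        have := norm_add_le (y0.2 - bF y0.1) (bF y0.1)
        rw [sub_add_cancel] at this
        linarith
  · rcases h1.lt_or_eq with h1 | h1
    · exact fact2 y0 rfl h1 h2
    · by_cases h3 : 1 / 100 ≤ ‖y0.1 - 1‖
      · exact ⟨y0, Or.inr ⟨⟨h1, h3⟩, h2⟩, rfl⟩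
      · rw [not_le] at h3
        have ha := aF_large (hre2 _ h3)
        have hb : ‖bF y0.1‖ ≤ 4 / 25 := by
          rw [norm_bF, h1]; linarith
        refine fact1 y0 rfl (by linarith) ?_
        have := norm_sub_le y0.2 (bF y0.1)
        linarith

end Pool.Agent.H19.KC
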