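import Pool.Agent.H93.KC.Targets

open Set Metric Filter Topology

namespace Pool.Agent.H19.KC

open Pool.Agent.H93.KC

lemma geom {K : Set ℂ} (hK : IsCompact K) (A : Subalgebra ℂ C(K, ℂ))
    (hA : IsClosed (A : Set C(K, ℂ))) (f : C(K, ℂ)) (hf : f ∈ A) (h1 : ∀ z, ‖f z‖ < 1) :
    ∃ g ∈ A, ∀ z, g z * (1 - f z) = 1 := by
  have : CompactSpace K := isCompact_iff_compactSpace.mp hK
  have hn : ‖f‖ < 1 := (ContinuousMap.norm_lt_iff f one_pos).2 h1
  refine ⟨∑' i : ℕ, f ^ i, ?_, ?_⟩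
  · have hs : Summable fun i : ℕ => f ^ i := summable_geometric_of_norm_lt_one hn
    refine hA.mem_of_tendsto hs.tendsto_sum_tsum_nat (Eventually.of_forall fun n => ?_)
    exact A.sum_mem fun i _ => A.pow_mem hf i
  · intro z
    have := geom_series_mul_neg f hn
    have h2 := congrArg (fun u : C(K, ℂ) => u z) this
    simpa using h2

lemma move {K : Set ℂ} (hK : IsCompact K) (A : Subalgebra ℂ C(K, ℂ))
    (hA : IsClosed (A : Set C(K, ℂ))) (a b : ℂ) (h : ∀ z ∈ K, ‖b - a‖ < ‖z - a‖)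
    (ha : ∃ f ∈ A, ∀ z : K, f z * ((z : ℂ) - a) = 1) :
    ∃ f ∈ A, ∀ z : K, f z * ((z : ℂ) - b) = 1 := by
  obtain ⟨f, hf, hfz⟩ := ha
  obtain ⟨g, hg, hgz⟩ := geom hK A hA ((b - a) • f) (A.smul_mem hf _) (by
    intro z
    have h1 := h z z.2
    have h2 : ‖f z‖ * ‖(z : ℂ) - a‖ = 1 := by rw [← norm_mul, hfz z, norm_one]
    have h3 : 0 < ‖(z : ℂ) - a‖ := lt_of_le_of_lt (norm_nonneg _) h1
    have h4 : 0 < ‖f z‖ := by
      rcases (norm_nonneg (f z)).lt_or_eq with h | h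
      · exact h
      · rw [← h, zero_mul] at h2; exact absurd h2 zero_ne_one
    rw [ContinuousMap.smul_apply, norm_smul]
    nlinarith)
  refine ⟨f * g, A.mul_mem hf hg, fun z => ?_⟩
  have h1 := hgz z
  have h2 := hfz z
  simp only [ContinuousMap.smul_apply, smul_eq_mul, ContinuousMap.mul_apply] at h1 ⊢
  calc f z * g z * ((z : ℂ) - b) = g z * (f z * ((z : ℂ) - a) - (b - a) * f z) := by ring
    _ = 1 := by rw [h2, h1]

theorem push : T_PUSH := by
  intro K hK A hA hZ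
  obtain ⟨Z, hZA, hZz⟩ := hZ
  constructor
  · intro a ha
    rcases K.eq_empty_or_nonempty with hKe | ⟨z0, hz0⟩
    · exact ⟨0, A.zero_mem, fun z => absurd z.2 (Set.eq_empty_iff_forall_notMem.1 hKe z)⟩
    have ha0 : a ≠ 0 := by
      intro h
      have := ha z0 hz0
      rw [h, norm_zero] at this
      exact absurd this (not_lt.2 (norm_nonneg _))
    obtain ⟨g, hg, hgz⟩ := geom hK A hA (a⁻¹ • Z) (A.smul_mem hZA _) (by
      intro z
      rw [ContinuousMap.smul_apply, hZz, norm_smul, norm_inv, inv_mul_lt_iff₀ (norm_pos_iff.2 ha0),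
        mul_one]
      exact ha z z.2)
    refine ⟨(-a⁻¹) • g, A.smul_mem hg _, fun z => ?_⟩
    have h1 := hgz z
    simp only [ContinuousMap.smul_apply, smul_eq_mul, hZz] at h1 ⊢
    rw [← h1]
    field_simp
    ring
  · intro C hC hCK a haC b hbC ha
    set P : Set ℂ := {c | c ∈ Kᶜ ∧ ∃ f ∈ A, ∀ z : K, f z * ((z : ℂ) - c) = 1} with hP
    set Q : Set ℂ := {c | c ∈ Kᶜ ∧ ¬ ∃ f ∈ A, ∀ z : K, f z * ((z : ℂ) - c) = 1} with hQ
    have key : ∀ c ∈ Kᶜ, ∃ d > 0, ∀ c' ∈ ball c d, c' ∈ Kᶜ ∧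
        ((∃ f ∈ A, ∀ z : K, f z * ((z : ℂ) - c) = 1) ↔
          (∃ f ∈ A, ∀ z : K, f z * ((z : ℂ) - c') = 1)) := by
      intro c hc
      obtain ⟨d, hd, hb⟩ := Metric.isOpen_iff.1 hK.isClosed.isOpen_compl c hc
      have hz : ∀ z ∈ K, d ≤ ‖z - c‖ := by
        intro z hz
        by_contra h
        exact hb (show z ∈ ball c d by rw [mem_ball, dist_eq_norm]; exact not_le.1 h) hz
      refine ⟨d / 2, half_pos hd, fun c' hc' => ?_⟩
      rw [mem_ball, dist_eq_norm] at hc'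
      have hz' : ∀ z ∈ K, d / 2 < ‖z - c'‖ := by
        intro z hzK
        have h1 := hz z hzK
        have h2 : ‖z - c‖ ≤ ‖z - c'‖ + ‖c' - c‖ := by
          have := norm_add_le (z - c') (c' - c)
          rwa [sub_add_sub_cancel] at this
        linarith
      refine ⟨hb (show c' ∈ ball c d by rw [mem_ball, dist_eq_norm]; linarith), ?_, ?_⟩
      · exact move hK A hA c c' fun z hzK => by have := hz z hzK; linarith
      · refine move hK A hA c' c fun z hzK => ?_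
        have := hz' z hzK
        rw [norm_sub_rev]
        linarith
    have hPo : IsOpen P := by
      rw [Metric.isOpen_iff]
      intro c hc
      obtain ⟨d, hd, h⟩ := key c hc.1
      exact ⟨d, hd, fun c' hc' => ⟨(h c' hc').1, (h c' hc').2.1 hc.2⟩⟩
    have hQo : IsOpen Q := by
      rw [Metric.isOpen_iff]
      intro c hc
      obtain ⟨d, hd, h⟩ := key c hc.1
      exact ⟨d, hd, fun c' hc' => ⟨(h c' hc').1, fun hh => hc.2 ((h c' hc').2.2 hh)⟩⟩
    have hdis : Disjoint P Q := by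
      rw [Set.disjoint_left]
      intro c h1 h2
      exact h2.2 h1.2
    have hsub : C ⊆ P ∪ Q := by
      intro c hc
      by_cases h : ∃ f ∈ A, ∀ z : K, f z * ((z : ℂ) - c) = 1
      · exact Or.inl ⟨hCK hc, h⟩
      · exact Or.inr ⟨hCK hc, h⟩
    exact (hC.subset_left_of_subset_union hPo hQo hdis hsub ⟨a, haC, hCK haC, ha⟩ hbC).2

end Pool.Agent.H19.KC
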